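import Pool.Agent.R600.QC.Fin
import Pool.Agent.R600.QC.EL
import Pool.Agent.R600.QC.ER
import Pool.Agent.R600.QC.LL
import Pool.Agent.R600.QC.RR

open Finset Polynomial

namespace Pool.Agent.Results.MP_781342_nt.CongruencePhiCubed

/-- The `q`-Pochhammer symbol `(a;q)_k = ∏_{j<k} (1 - a q^j)` in the field `ℚ(q)`. -/
noncomputable def qPoch (a q : RatFunc ℚ) (k : ℕ) : RatFunc ℚ := ∏ j ∈ range k, (1 - a * q ^ j)

/-- The central Gaussian binomial coefficient `[2k, k] = (q;q)_{2k} / (q;q)_k²`. -/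
noncomputable def qBinom (q : RatFunc ℚ) (k : ℕ) : RatFunc ℚ :=
  qPoch q q (2 * k) / qPoch q q k ^ 2

/-- `L_n(q) = ∑_{k=0}^{n-1} [2k, k] q^k / (-q;q)_k`, where `q = RatFunc.X` is the indeterminate. -/
noncomputable def L (n : ℕ) : RatFunc ℚ :=
  ∑ k ∈ range n, qBinom RatFunc.X k * RatFunc.X ^ k / qPoch (-RatFunc.X) RatFunc.X k

/-- `R_n(q) = ∑_{k=0}^{n-1} q^{2k} (q;q²)_k² / (q²;q²)_k²`. -/
noncomputable def R (n : ℕ) : RatFunc ℚ :=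
  ∑ k ∈ range n, RatFunc.X ^ (2 * k) * qPoch RatFunc.X (RatFunc.X ^ 2) k ^ 2 /
    qPoch (RatFunc.X ^ 2) (RatFunc.X ^ 2) k ^ 2

/-- `A ≡ B (mod Φ_n(q)^m)` in `ℚ(q)`: `A - B = P(q)/Q(q)` with `P, Q ∈ ℤ[q]`, `Φ_n^m ∣ P` and
`Q` coprime to `Φ_n` (no common factor in `ℤ[q]`). -/
def CongMod (n m : ℕ) (A B : RatFunc ℚ) : Prop :=
  ∃ P Q : ℤ[X], cyclotomic n ℤ ^ m ∣ P ∧ Q ≠ 0 ∧ IsRelPrime Q (cyclotomic n ℤ) ∧
    A - B = aeval (RatFunc.X : RatFunc ℚ) P / aeval (RatFunc.X : RatFunc ℚ) Q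

/-- For every positive odd `n`, `L_n(q) ≡ R_n(q) (mod Φ_n(q)³)`. -/
theorem result : ∀ n : ℕ, Odd n → CongMod n 3 (L n) (R n) :=
  fun n hn => Pool.Agent.R600.QC.main_of Pool.Agent.R600.QC.t_EL Pool.Agent.R600.QC.t_ER
    Pool.Agent.R600.QC.t_LL Pool.Agent.R600.QC.t_RR n hn

end Pool.Agent.Results.MP_781342_nt.CongruencePhiCubed
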